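import Pool.Agent.Y664.Z.LinAlg
import Pool.Agent.Y809.BSD14.Selb

/-!
# The first isogeny Selmer set for many split primes
-/

set_option autoImplicit false

namespace Pool.Agent.Y664.Z

open Finset Pool.Agent.Z700
open Pool.Agent.Y700 (PC Rt)
open Pool.Agent.Y814.BSD14 Pool.Agent.Y809.BSD14

theorem pr_erase {P : Finset ℕ} {p : ℕ} (hp : p ∈ P) : pr P = p * pr (P.erase p) := by
  unfold pr
  exact (Finset.mul_prod_erase P (fun q => q) hp).symm

theorem pr_sdiff {P J : Finset ℕ} (hJ : J ⊆ P) : pr P = pr J * pr (P \ J) := by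
  unfold pr
  rw [mul_comm]
  exact (Finset.prod_sdiff hJ).symm

theorem pr_erase_sdiff {P J : Finset ℕ} (hJ : J ⊆ P) {p : ℕ} (hp : p ∈ J) :
    pr (P.erase p) = pr (J.erase p) * pr (P \ J) := by
  have h1 : J.erase p ⊆ P.erase p := Finset.erase_subset_erase p hJ
  have h2 : P.erase p \ J.erase p = P \ J := by
    ext k
    simp only [Finset.mem_sdiff, Finset.mem_erase]
    constructor
    · rintro ⟨⟨h3, h4⟩, h5⟩
      exact ⟨h4, fun h6 => h5 ⟨h3, h6⟩⟩
    · rintro ⟨h3, h4⟩
      have h5 : k ≠ p := by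
        rintro rfl
        exact h4 hp
      exact ⟨⟨h5, h3⟩, fun h6 => h4 h6.2⟩
  rw [pr_sdiff h1, h2]

/-- The frame of the descent: the local conditions away from `J` and in `J` imply that no prime of
`P` divides `z`. -/
theorem frame {P : Finset ℕ} (H : Hyk P) {c1 c2 : ℤ} {q0 : ℕ}
    (hc2 : ∀ q : ℕ, q.Prime → q ≠ q0 → ¬ (q : ℤ) ∣ c2) (hq0P : q0 ∉ P)
    (hsq : ∀ p ∈ P, IsSquare ((c2 : ℤ) : ZMod p)) (hq0 : ∀ p ∈ P, IsSquare (q0 : ZMod p)) {z : ℤ}
    (hz : Squarefree z)
    (h : ∀ (l : ℕ) [Fact l.Prime], PC (c1 * (pr P : ℤ)) (c2 * (pr P : ℤ) ^ 2) l z)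
    (hR : ∀ p ∈ P, ∀ z' : ℤ, z = p * z' →
      (IsSquare ((z' : ZMod p) * ((pr (P.erase p) : ℕ) : ZMod p)) ↔ ¬ Rt p 1)) :
    z.natAbs = 1 ∨ z.natAbs = q0 := by
  classical
  obtain ⟨hne, hP, hodd⟩ := H
  set J := P.filter (fun p : ℕ => (p : ℤ) ∣ z) with hJdef
  have hJP : J ⊆ P := Finset.filter_subset _ _
  have hJm : ∀ p, p ∈ J ↔ p ∈ P ∧ (p : ℤ) ∣ z := fun p => Finset.mem_filter
  have hprP : ∀ q ∈ P, q.Prime := fun q hq => (hP q hq).1
  have hprJ : ∀ q ∈ J, q.Prime := fun q hq => hprP q (hJP hq)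
  -- the primes dividing `z`
  have hpr : ∀ q : ℕ, q.Prime → (q : ℤ) ∣ z → q = q0 ∨ q ∈ P := by
    intro q hq hqz
    by_contra hcon
    push Not at hcon
    have : Fact q.Prime := ⟨hq⟩
    have hqP : Prime (q : ℤ) := Nat.prime_iff_prime_int.1 hq
    refine not_dvd_of_PC hz ?_ (h q) hqz
    intro h0
    rcases hqP.dvd_or_dvd h0 with h0 | h0
    · exact hc2 q hq hcon.1 h0
    · have h1 := hqP.dvd_of_dvd_pow h0
      exact prime_not_dvd_pr hq hprP hcon.2 (by exact_mod_cast h1)
  -- the decomposition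
  have hdvd : ((pr J : ℕ) : ℤ) ∣ z := by
    rw [Int.natCast_dvd]
    unfold pr
    refine Finset.prod_primes_dvd _ (fun q hq => (hprJ q hq).prime) fun q hq => ?_
    exact Int.natCast_dvd.1 ((hJm q).1 hq).2
  obtain ⟨u, hu⟩ := hdvd
  have huq : ∀ q : ℕ, q.Prime → (q : ℤ) ∣ u → q = q0 := by
    intro q hq hqu
    have hqz : (q : ℤ) ∣ z := by
      rw [hu]
      exact hqu.mul_left _
    rcases hpr q hq hqz with h1 | h1
    · exact h1
    · exfalso
      have hqJ : q ∈ J := (hJm q).2 ⟨h1, hqz⟩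
      have h2 : z = q * (((pr (J.erase q) : ℕ) : ℤ) * u) := by
        rw [hu, pr_erase hqJ]
        push_cast
        ring
      exact not_dvd_of_sqf hq hz h2 (hqu.mul_left _)
  have hud : u ∣ z := Dvd.intro_left _ hu.symm
  have huu : u.natAbs = 1 ∨ u.natAbs = q0 := only_prime (hz.squarefree_of_dvd hud) huq
  have husq : ∀ p ∈ P, IsSquare (u : ZMod p) := fun p hp =>
    unit_sq (hprP p hp) (hP p hp).2.1 (hq0 p hp) u huu
  have hu0 : ∀ p ∈ P, (u : ZMod p) ≠ 0 := by
    intro p hp h0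
    have h1 := (ZMod.intCast_zmod_eq_zero_iff_dvd u p).1 h0
    have h2 := huq p (hprP p hp) h1
    exact hq0P (h2 ▸ hp)
  have hJ : J = ∅ := by
    refine J_empty ⟨hne, hP, hodd⟩ hJP ?_ ?_
    · intro p hp
      rw [Finset.mem_sdiff] at hp
      have f : Fact p.Prime := ⟨hprP p hp.1⟩
      have hpz : ¬ (p : ℤ) ∣ z := fun h0 => hp.2 ((hJm p).2 ⟨hp.1, h0⟩)
      have h1 := h p
      have e1 : ((pr P : ℕ) : ℤ) = p * ((pr (P.erase p) : ℕ) : ℤ) := by
        rw [pr_erase hp.1]
        push_cast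
        ring
      rw [e1] at h1
      have hpp := prime_not_dvd_pr (hprP p hp.1) (K := P.erase p)
        (fun q hq => hprP q (Finset.mem_of_mem_erase hq)) (Finset.notMem_erase p P)
      have hpc2 : ¬ (p : ℤ) ∣ c2 := hc2 p (hprP p hp.1) (by
        rintro rfl
        exact hq0P hp.1)
      obtain ⟨r, hr⟩ := sq_of_PC hpz (by exact_mod_cast hpp) hpc2 (hsq p hp.1) h1
      obtain ⟨s, hs⟩ := husq p hp.1
      have hs0 : s ≠ 0 := by
        rintro rfl
        apply hu0 p hp.1
        rw [hs]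
        ring
      refine ⟨r / s, ?_⟩
      rw [div_mul_div_comm, eq_div_iff (mul_ne_zero hs0 hs0), ← hs, ← hr, hu]
      push_cast
      ring
    · intro p hp
      obtain ⟨hpP, z', hz'⟩ := (hJm p).1 hp
      have f : Fact p.Prime := ⟨hprP p hpP⟩
      rw [← hR p hpP z' hz']
      have hp0 : (p : ℤ) ≠ 0 := by
        have := (hprP p hpP).ne_zero
        exact_mod_cast this
      have e1 : z' = ((pr (J.erase p) : ℕ) : ℤ) * u := by
        apply mul_left_cancel₀ hp0
        rw [← hz', hu, pr_erase hp]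
        push_cast
        ring
      have e2 : (z' : ZMod p) * ((pr (P.erase p) : ℕ) : ZMod p) =
          (u : ZMod p) * (((pr (J.erase p) : ℕ) : ZMod p) * ((pr (J.erase p) : ℕ) : ZMod p)) *
            ((pr (P \ J) : ℕ) : ZMod p) := by
        rw [e1, pr_erase_sdiff hJP hp]
        push_cast
        ring
      have hJ0 : ((pr (J.erase p) : ℕ) : ZMod p) ≠ 0 := cast_pr_ne (hprP p hpP)
        (fun q hq => hprJ q (Finset.mem_of_mem_erase hq)) (Finset.notMem_erase p J)
      obtain ⟨s, hs⟩ := husq p hpP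
      have hs0 : s ≠ 0 := by
        rintro rfl
        apply hu0 p hpP
        rw [hs]
        ring
      rw [e2]
      constructor
      · rintro ⟨r, hr⟩
        refine ⟨s * ((pr (J.erase p) : ℕ) : ZMod p) * r, ?_⟩
        rw [hr, hs]
        ring
      · rintro ⟨r, hr⟩
        refine ⟨r / (s * ((pr (J.erase p) : ℕ) : ZMod p)), ?_⟩
        have h3 := mul_ne_zero hs0 hJ0
        rw [div_mul_div_comm, eq_div_iff (mul_ne_zero h3 h3), ← hr, hs]
        ring
  have hz1 : z = u := by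
    rw [hu, hJ]
    simp [pr]
  rw [hz1]
  exact huu

theorem two_sq {p : ℕ} (hp : p.Prime) (p8 : p % 8 = 1) : IsSquare (2 : ZMod p) := by
  have : Fact p.Prime := ⟨hp⟩
  rw [ZMod.exists_sq_eq_two_iff (by rintro rfl; omega)]
  exact Or.inl p8

/-- two roots of `x² + 13 x + 128` have the same quadratic character -/
theorem rt_of_not {p : ℕ} (hp : p.Prime) (p8 : p % 8 = 1) {r : ZMod p}
    (hr : r ^ 2 + 13 * r + 128 = 0) (hns : ¬ IsSquare r) : Rt p 1 := by
  have : Fact p.Prime := ⟨hp⟩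
  intro x hx hxs
  obtain ⟨s2, hs2⟩ := two_sq hp p8
  push_cast at hx
  have h1 : (x - r) * (x + r + 13) = 0 := by linear_combination hx - hr
  rcases mul_eq_zero.1 h1 with h2 | h2
  · exact hns ((sub_eq_zero.1 h2) ▸ hxs)
  · have h3 : x * r = 128 := by linear_combination r * h2 - hr
    obtain ⟨t, ht⟩ := hxs
    have n2 : (2 : ZMod p) ≠ 0 := by
      exact_mod_cast cast_ne hp Nat.prime_two (by rintro rfl; omega)
    have h128 : (128 : ZMod p) ≠ 0 := by
      rw [show (128 : ZMod p) = 2 ^ 7 by norm_num]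
      exact pow_ne_zero _ n2
    have ht0 : t ≠ 0 := by
      rintro rfl
      apply h128
      rw [← h3, ht]
      ring
    apply hns
    refine ⟨8 * s2 / t, ?_⟩
    rw [div_mul_div_comm, eq_div_iff (mul_ne_zero ht0 ht0), ← ht]
    linear_combination h3 + 64 * hs2

theorem t_SELA : S_SELA := by
  intro P H z hz hz0 h
  have hP := H.2.1
  have key := frame (c1 := 13) (c2 := 128) (q0 := 2) H (fun q hq n2 => nd128 hq n2) (by
      intro h0
      have := (hP 2 h0).2.1
      omega) (by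
      intro p hp
      obtain ⟨s, hs⟩ := two_sq (hP p hp).1 (hP p hp).2.1
      refine ⟨8 * s, ?_⟩
      push_cast
      linear_combination 64 * hs) (by
      intro p hp
      exact_mod_cast two_sq (hP p hp).1 (hP p hp).2.1) hz h ?_
  · omega
  · intro p hp z' hz'
    have hpp := (hP p hp).1
    have p8 := (hP p hp).2.1
    have f : Fact p.Prime := ⟨hpp⟩
    have p2 : p ≠ 2 := by rintro rfl; omega
    have hq := prime_not_dvd_pr hpp (K := P.erase p)
      (fun q hq => (hP q (Finset.mem_of_mem_erase hq)).1) (Finset.notMem_erase p P)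
    have hq0 := cast_pr_ne hpp (K := P.erase p)
      (fun q hq => (hP q (Finset.mem_of_mem_erase hq)).1) (Finset.notMem_erase p P)
    have e1 : ((pr P : ℕ) : ℤ) = p * ((pr (P.erase p) : ℕ) : ℤ) := by
      rw [pr_erase hp]
      push_cast
      ring
    constructor
    · intro hs
      refine nRt1 (m := 1) hpp hq0 (by push_cast; rw [mul_one]; exact_mod_cast hq) p2 hz hz' ?_ hs
      intro l _
      have h1 := h l
      rw [e1] at h1
      push_cast at h1 ⊢
      rw [mul_one]
      exact h1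
    · intro hnR
      by_contra hns
      apply hnR
      have hqz : ¬ (p : ℤ) ∣ ((pr (P.erase p) : ℕ) : ℤ) := by exact_mod_cast hq
      have hpP : Prime (p : ℤ) := Nat.prime_iff_prime_int.1 hpp
      have hB : ¬ (p : ℤ) ∣ 128 * ((pr (P.erase p) : ℕ) : ℤ) ^ 2 := by
        intro h0
        rcases hpP.dvd_or_dvd h0 with h0 | h0
        · exact nd128 hpp p2 h0
        · exact hqz (hpP.dvd_of_dvd_pow h0)
      have h1 := h p
      rw [e1, show (13 : ℤ) * (p * ((pr (P.erase p) : ℕ) : ℤ)) =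
          p * (13 * ((pr (P.erase p) : ℕ) : ℤ)) by ring,
        show (128 : ℤ) * (p * ((pr (P.erase p) : ℕ) : ℤ)) ^ 2 =
          (p : ℤ) ^ 2 * (128 * ((pr (P.erase p) : ℕ) : ℤ) ^ 2) by ring] at h1
      obtain ⟨r, hr, hr0, hr2⟩ := root_of_PC hz ⟨z', hz'⟩ hB h1
      obtain ⟨t, ht⟩ := hr2 z' hz'
      push_cast at hr
      refine rt_of_not hpp p8 (r := r / ((pr (P.erase p) : ℕ) : ZMod p)) ?_ ?_
      · field_simp
        linear_combination hr
      · rintro ⟨s, hs⟩
        apply hns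
        have hrs : r = s * s * ((pr (P.erase p) : ℕ) : ZMod p) := by
          rw [← hs]
          field_simp
        have hs0 : s ≠ 0 := by
          rintro rfl
          apply hr0
          rw [hrs]
          ring
        refine ⟨t / s, ?_⟩
        rw [div_mul_div_comm, eq_div_iff (mul_ne_zero hs0 hs0), ← ht, hrs]
        ring

end Pool.Agent.Y664.Z
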