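import Pool.Agent.Z700.Defs3
import Pool.Agent.Y664.Z.Sela

/-!
# The first isogeny Selmer set for many split and many inert primes
-/

set_option autoImplicit false
set_option linter.style.haveILetI false

namespace Pool.Agent.Y664.Z1

open Finset Pool.Agent.Z701
open Pool.Agent.Z700 (pr Yd lres)
open Pool.Agent.Y700 (PC Rt)
open Pool.Agent.Y814.BSD14 Pool.Agent.Y809.BSD14
open Pool.Agent.Y664.Z

theorem sq7r : ∀ r : ℕ, r < 7 → r ≠ 0 →
    (IsSquare ((r : ℕ) : ZMod 7) ↔ (r = 1 ∨ r = 2 ∨ r = 4)) := by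
  decide

/-- the square class of `-7` -/
theorem sq_seven (p : ℕ) [Fact p.Prime] (h4 : p % 4 = 1) (h7 : p ≠ 7) :
    IsSquare (-7 : ZMod p) ↔ (p % 7 = 1 ∨ p % 7 = 2 ∨ p % 7 = 4) := by
  haveI : Fact (Nat.Prime 7) := ⟨by norm_num⟩
  have hp : p.Prime := Fact.out
  obtain ⟨i, hi⟩ := (ZMod.exists_sq_eq_neg_one_iff (p := p)).2 (by omega)
  have hi0 : i ≠ 0 := by
    rintro rfl
    norm_num at hi
  have h1 : IsSquare (-7 : ZMod p) ↔ IsSquare (7 : ZMod p) := by
    constructor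
    · rintro ⟨r, hr⟩
      exact ⟨i * r, by linear_combination (i * i) * hr + (-7 : ZMod p) * hi⟩
    · rintro ⟨r, hr⟩
      exact ⟨i * r, by linear_combination (i * i) * hr + (7 : ZMod p) * hi⟩
  rw [h1]
  have h2 : IsSquare ((7 : ℕ) : ZMod p) ↔ IsSquare ((p : ℕ) : ZMod 7) :=
    ZMod.exists_sq_eq_prime_iff_of_mod_four_eq_one (p := p) (q := 7) h4 (by norm_num)
  have h3 : IsSquare (7 : ZMod p) ↔ IsSquare ((p : ℕ) : ZMod 7) := by
    rw [← h2]; norm_num
  rw [h3]
  have h4' : ((p : ℕ) : ZMod 7) = ((p % 7 : ℕ) : ZMod 7) := by rw [ZMod.natCast_mod]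
  have h5 : p % 7 ≠ 0 := by
    intro h0
    exact h7 ((Nat.prime_dvd_prime_iff_eq (by norm_num) hp).1 (Nat.dvd_of_mod_eq_zero h0)).symm
  rw [h4']
  exact sq7r (p % 7) (Nat.mod_lt _ (by norm_num)) h5

/-- The residue conditions imply that `J` is empty. -/
theorem J_emptyS {P S J : Finset ℕ} (hP : ∀ p ∈ P, Sp p) (hodd : Odd (Yd lres (xrS S) P))
    (hJ : J ⊆ P) (h1 : ∀ p ∈ P \ J, IsSquare ((pr J : ℕ) : ZMod p))
    (h2 : ∀ p ∈ J, (IsSquare ((pr (P \ J) : ℕ) : ZMod p) ↔ ¬ Rt p (pr S))) : J = ∅ := by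
  classical
  refine lin lres (xrS S) P J hodd hJ ?_ ?_
  · intro p hp
    rw [Finset.mem_sdiff] at hp
    exact (parity (hP p hp.1).1 (hP p hp.1).2.1 J
      (fun q hq => ⟨(hP q (hJ hq)).1, (hP q (hJ hq)).2.1⟩) hp.2).1
      (h1 p (Finset.mem_sdiff.2 hp))
  · intro p hp
    have h3 := parity (hP p (hJ hp)).1 (hP p (hJ hp)).2.1 (P \ J)
      (fun q hq => ⟨(hP q (Finset.mem_sdiff.1 hq).1).1, (hP q (Finset.mem_sdiff.1 hq).1).2.1⟩)
      (fun h => (Finset.mem_sdiff.1 h).2 hp)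
    have h4 := h2 p hp
    unfold xrS
    by_cases h5 : Rt p (pr S)
    · rw [if_pos h5, Int.even_add]
      have h6 : ¬ Even (∑ q ∈ P \ J, lres p q) := fun h7 => (h4.1 (h3.2 h7)) h5
      constructor
      · intro h7
        exact absurd h7 h6
      · intro h7
        exact absurd h7 (by decide)
    · rw [if_neg h5, add_zero]
      exact h3.1 (h4.2 h5)

/-- a split prime does not divide the other factors -/
theorem nd_split {P S : Finset ℕ} (hP : ∀ p ∈ P, Sp p) (hS : ∀ q ∈ S, Nr q) {p : ℕ} (hp : p ∈ P) :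
    ¬ (p : ℤ) ∣ ((pr (P.erase p) : ℕ) : ℤ) * ((pr S : ℕ) : ℤ) := by
  intro h0
  have hpp := (hP p hp).1
  have hpP : Prime (p : ℤ) := Nat.prime_iff_prime_int.1 hpp
  rcases hpP.dvd_or_dvd h0 with h1 | h1
  · exact prime_not_dvd_pr hpp (K := P.erase p)
      (fun q hq => (hP q (Finset.mem_of_mem_erase hq)).1) (Finset.notMem_erase p P)
      (by exact_mod_cast h1)
  · refine prime_not_dvd_pr hpp (K := S) (fun q hq => (hS q hq).1) ?_ (by exact_mod_cast h1)
    intro h2
    have h3 := (hP p hp).2.1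
    have h4 := (hS p h2).2.1
    omega

/-- The frame of the descent: the local conditions away from `J` and in `J` imply that no prime of
`P` divides `z`. -/
theorem frameS {P S : Finset ℕ} (hP : ∀ p ∈ P, Sp p) (hS : ∀ q ∈ S, Nr q)
    (hodd : Odd (Yd lres (xrS S) P)) {c1 c2 : ℤ} {q0 : ℕ}
    (hc2 : ∀ q : ℕ, q.Prime → q ≠ q0 → ¬ (q : ℤ) ∣ c2) (hq0P : q0 ∉ P) (hq0S : q0 ∉ S)
    (hrt : ∀ q ∈ S, ∀ M r : ZMod q, M ≠ 0 → r ^ 2 + c1 * M * r + c2 * M ^ 2 ≠ 0)
    (hsq : ∀ p ∈ P, IsSquare ((c2 : ℤ) : ZMod p)) (hq0 : ∀ p ∈ P, IsSquare (q0 : ZMod p)) {z : ℤ}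
    (hz : Squarefree z)
    (h : ∀ (l : ℕ) [Fact l.Prime], PC (c1 * ((pr P : ℤ) * (pr S : ℤ)))
      (c2 * ((pr P : ℤ) * (pr S : ℤ)) ^ 2) l z)
    (hR : ∀ p ∈ P, ∀ z' : ℤ, z = p * z' →
      (IsSquare ((z' : ZMod p) * ((pr (P.erase p) : ℕ) : ZMod p)) ↔ ¬ Rt p (pr S))) :
    z.natAbs = 1 ∨ z.natAbs = q0 := by
  classical
  set J := P.filter (fun p : ℕ => (p : ℤ) ∣ z) with hJdef
  have hJP : J ⊆ P := Finset.filter_subset _ _
  have hJm : ∀ p, p ∈ J ↔ p ∈ P ∧ (p : ℤ) ∣ z := fun p => Finset.mem_filter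
  have hprP : ∀ q ∈ P, q.Prime := fun q hq => (hP q hq).1
  have hprJ : ∀ q ∈ J, q.Prime := fun q hq => hprP q (hJP hq)
  have hprS : ∀ q ∈ S, q.Prime := fun q hq => (hS q hq).1
  -- the primes dividing `z`
  have hpr : ∀ q : ℕ, q.Prime → (q : ℤ) ∣ z → q = q0 ∨ q ∈ P := by
    intro q hq hqz
    by_contra hcon
    push Not at hcon
    have : Fact q.Prime := ⟨hq⟩
    have hqP : Prime (q : ℤ) := Nat.prime_iff_prime_int.1 hq
    by_cases hqS : q ∈ S
    · have eS : ((pr S : ℕ) : ℤ) = q * ((pr (S.erase q) : ℕ) : ℤ) := by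
        rw [pr_erase hqS]
        push_cast
        ring
      have hM' : ¬ (q : ℤ) ∣ (((pr P : ℕ) : ℤ) * ((pr (S.erase q) : ℕ) : ℤ)) := by
        intro h0
        rcases hqP.dvd_or_dvd h0 with h0 | h0
        · exact prime_not_dvd_pr hq hprP hcon.2 (by exact_mod_cast h0)
        · exact prime_not_dvd_pr hq (K := S.erase q)
            (fun r hr => hprS r (Finset.mem_of_mem_erase hr)) (Finset.notMem_erase q S)
            (by exact_mod_cast h0)
      have hB : ¬ (q : ℤ) ∣ c2 * (((pr P : ℕ) : ℤ) * ((pr (S.erase q) : ℕ) : ℤ)) ^ 2 := by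
        intro h0
        rcases hqP.dvd_or_dvd h0 with h0 | h0
        · exact hc2 q hq hcon.1 h0
        · exact hM' (hqP.dvd_of_dvd_pow h0)
      have h1 := h q
      rw [eS, show c1 * (((pr P : ℕ) : ℤ) * ((q : ℤ) * ((pr (S.erase q) : ℕ) : ℤ))) =
          q * (c1 * (((pr P : ℕ) : ℤ) * ((pr (S.erase q) : ℕ) : ℤ))) by ring,
        show c2 * (((pr P : ℕ) : ℤ) * ((q : ℤ) * ((pr (S.erase q) : ℕ) : ℤ))) ^ 2 =
          (q : ℤ) ^ 2 * (c2 * (((pr P : ℕ) : ℤ) * ((pr (S.erase q) : ℕ) : ℤ)) ^ 2) by ring] at h1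
      obtain ⟨r, hr, -, -⟩ := root_of_PC hz hqz hB h1
      have hM0 : ((((pr P : ℕ) : ℤ) * ((pr (S.erase q) : ℕ) : ℤ) : ℤ) : ZMod q) ≠ 0 := by
        intro h0
        exact hM' ((ZMod.intCast_zmod_eq_zero_iff_dvd _ _).1 h0)
      refine hrt q hqS _ r hM0 ?_
      rw [← hr]
      push_cast
      ring
    · refine not_dvd_of_PC hz ?_ (h q) hqz
      intro h0
      rcases hqP.dvd_or_dvd h0 with h0 | h0
      · exact hc2 q hq hcon.1 h0
      · rcases hqP.dvd_or_dvd (hqP.dvd_of_dvd_pow h0) with h1 | h1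
        · exact prime_not_dvd_pr hq hprP hcon.2 (by exact_mod_cast h1)
        · exact prime_not_dvd_pr hq hprS hqS (by exact_mod_cast h1)
  -- the decomposition
  have hdvd : ((pr J : ℕ) : ℤ) ∣ z := by
    rw [Int.natCast_dvd]
    unfold pr
    refine Finset.prod_primes_dvd _ (fun q hq => (hprJ q hq).prime) fun q hq => ?_
    exact Int.natCast_dvd.1 ((hJm q).1 hq).2
  obtain ⟨u, hu⟩ := hdvd
  have huq : ∀ q : ℕ, q.Prime → (q : ℤ) ∣ u → q = q0 := by
    intro q hq hqu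
    have hqz : (q : ℤ) ∣ z := by
      rw [hu]
      exact hqu.mul_left _
    rcases hpr q hq hqz with h1 | h1
    · exact h1
    · exfalso
      have hqJ : q ∈ J := (hJm q).2 ⟨h1, hqz⟩
      have h2 : z = q * (((pr (J.erase q) : ℕ) : ℤ) * u) := by
        rw [hu, pr_erase hqJ]
        push_cast
        ring
      exact not_dvd_of_sqf hq hz h2 (hqu.mul_left _)
  have hud : u ∣ z := Dvd.intro_left _ hu.symm
  have huu : u.natAbs = 1 ∨ u.natAbs = q0 := only_prime (hz.squarefree_of_dvd hud) huq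
  have husq : ∀ p ∈ P, IsSquare (u : ZMod p) := fun p hp =>
    unit_sq (hprP p hp) (hP p hp).2.1 (hq0 p hp) u huu
  have hu0 : ∀ p ∈ P, (u : ZMod p) ≠ 0 := by
    intro p hp h0
    have h1 := (ZMod.intCast_zmod_eq_zero_iff_dvd u p).1 h0
    have h2 := huq p (hprP p hp) h1
    exact hq0P (h2 ▸ hp)
  have hJ : J = ∅ := by
    refine J_emptyS hP hodd hJP ?_ ?_
    · intro p hp
      rw [Finset.mem_sdiff] at hp
      have f : Fact p.Prime := ⟨hprP p hp.1⟩
      have hpz : ¬ (p : ℤ) ∣ z := fun h0 => hp.2 ((hJm p).2 ⟨hp.1, h0⟩)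
      have h1 := h p
      have e1 : ((pr P : ℕ) : ℤ) * ((pr S : ℕ) : ℤ) =
          p * (((pr (P.erase p) : ℕ) : ℤ) * ((pr S : ℕ) : ℤ)) := by
        rw [pr_erase hp.1]
        push_cast
        ring
      rw [e1] at h1
      have hpp := nd_split hP hS hp.1
      have hpc2 : ¬ (p : ℤ) ∣ c2 := hc2 p (hprP p hp.1) (by
        rintro rfl
        exact hq0P hp.1)
      obtain ⟨r, hr⟩ := sq_of_PC hpz hpp hpc2 (hsq p hp.1) h1
      obtain ⟨s, hs⟩ := husq p hp.1
      have hs0 : s ≠ 0 := by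
        rintro rfl
        apply hu0 p hp.1
        rw [hs]
        ring
      refine ⟨r / s, ?_⟩
      rw [div_mul_div_comm, eq_div_iff (mul_ne_zero hs0 hs0), ← hs, ← hr, hu]
      push_cast
      ring
    · intro p hp
      obtain ⟨hpP, z', hz'⟩ := (hJm p).1 hp
      have f : Fact p.Prime := ⟨hprP p hpP⟩
      rw [← hR p hpP z' hz']
      have hp0 : (p : ℤ) ≠ 0 := by
        have := (hprP p hpP).ne_zero
        exact_mod_cast this
      have e1 : z' = ((pr (J.erase p) : ℕ) : ℤ) * u := by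
        apply mul_left_cancel₀ hp0
        rw [← hz', hu, pr_erase hp]
        push_cast
        ring
      have e2 : (z' : ZMod p) * ((pr (P.erase p) : ℕ) : ZMod p) =
          (u : ZMod p) * (((pr (J.erase p) : ℕ) : ZMod p) * ((pr (J.erase p) : ℕ) : ZMod p)) *
            ((pr (P \ J) : ℕ) : ZMod p) := by
        rw [e1, pr_erase_sdiff hJP hp]
        push_cast
        ring
      have hJ0 : ((pr (J.erase p) : ℕ) : ZMod p) ≠ 0 := cast_pr_ne (hprP p hpP)
        (fun q hq => hprJ q (Finset.mem_of_mem_erase hq)) (Finset.notMem_erase p J)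
      obtain ⟨s, hs⟩ := husq p hpP
      have hs0 : s ≠ 0 := by
        rintro rfl
        apply hu0 p hpP
        rw [hs]
        ring
      rw [e2]
      constructor
      · rintro ⟨r, hr⟩
        refine ⟨s * ((pr (J.erase p) : ℕ) : ZMod p) * r, ?_⟩
        rw [hr, hs]
        ring
      · rintro ⟨r, hr⟩
        refine ⟨r / (s * ((pr (J.erase p) : ℕ) : ZMod p)), ?_⟩
        have h3 := mul_ne_zero hs0 hJ0
        rw [div_mul_div_comm, eq_div_iff (mul_ne_zero h3 h3), ← hr, hs]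
        ring
  have hz1 : z = u := by
    rw [hu, hJ]
    simp [pr]
  rw [hz1]
  exact huu

/-- two roots of `x² + 13 m x + 128 m²` have the same quadratic character -/
theorem rt_of_notS {p m : ℕ} (hp : p.Prime) (p8 : p % 8 = 1) (hm : (m : ZMod p) ≠ 0) {r : ZMod p}
    (hr : r ^ 2 + 13 * m * r + 128 * m ^ 2 = 0) (hns : ¬ IsSquare r) : Rt p m := by
  have : Fact p.Prime := ⟨hp⟩
  intro x hx hxs
  obtain ⟨s2, hs2⟩ := two_sq hp p8
  have h1 : (x - r) * (x + r + 13 * m) = 0 := by linear_combination hx - hr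
  rcases mul_eq_zero.1 h1 with h2 | h2
  · exact hns ((sub_eq_zero.1 h2) ▸ hxs)
  · have h3 : x * r = 128 * (m : ZMod p) ^ 2 := by linear_combination r * h2 - hr
    obtain ⟨t, ht⟩ := hxs
    have n2 : (2 : ZMod p) ≠ 0 := by
      exact_mod_cast cast_ne hp Nat.prime_two (by rintro rfl; omega)
    have h128 : (128 : ZMod p) * (m : ZMod p) ^ 2 ≠ 0 := by
      rw [show (128 : ZMod p) = 2 ^ 7 by norm_num]
      exact mul_ne_zero (pow_ne_zero _ n2) (pow_ne_zero _ hm)
    have ht0 : t ≠ 0 := by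
      rintro rfl
      apply h128
      rw [← h3, ht]
      ring
    apply hns
    refine ⟨8 * m * s2 / t, ?_⟩
    rw [div_mul_div_comm, eq_div_iff (mul_ne_zero ht0 ht0), ← ht]
    linear_combination h3 + 64 * (m : ZMod p) ^ 2 * hs2

theorem t_SELA : S_SELA := by
  intro P S H z hz hz0 h0
  obtain ⟨-, hP, hS, hodd⟩ := H
  have h : ∀ (l : ℕ) [Fact l.Prime], PC (13 * ((pr P : ℤ) * (pr S : ℤ)))
      (128 * ((pr P : ℤ) * (pr S : ℤ)) ^ 2) l z := by
    intro l _
    have := h0 l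
    push_cast at this
    exact this
  have key := frameS (c1 := 13) (c2 := 128) (q0 := 2) hP hS hodd (fun q hq n2 => nd128 hq n2) (by
      intro h0
      have := (hP 2 h0).2.1
      omega) (by
      intro h0
      have := (hS 2 h0).2.1
      omega) (by
      intro q hq M r hM hr
      have hqp := (hS q hq).1
      have f : Fact q.Prime := ⟨hqp⟩
      have q8 := (hS q hq).2.1
      have q7 := (hS q hq).2.2
      have n7 : q ≠ 7 := by rintro rfl; omega
      have hs7 : ¬ IsSquare (-7 : ZMod q) := by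
        rw [sq_seven q (by omega) n7]
        omega
      apply hs7
      have n7' : (7 : ZMod q) ≠ 0 := by
        exact_mod_cast cast_ne hqp (by norm_num : (7 : ℕ).Prime) n7
      refine ⟨(2 * r + 13 * M) / (7 * M), ?_⟩
      push_cast at hr
      field_simp
      linear_combination -4 * hr) (by
      intro p hp
      obtain ⟨s, hs⟩ := two_sq (hP p hp).1 (hP p hp).2.1
      refine ⟨8 * s, ?_⟩
      push_cast
      linear_combination 64 * hs) (by
      intro p hp
      exact_mod_cast two_sq (hP p hp).1 (hP p hp).2.1) hz h ?_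
  · omega
  · intro p hp z' hz'
    have hpp := (hP p hp).1
    have p8 := (hP p hp).2.1
    have f : Fact p.Prime := ⟨hpp⟩
    have p2 : p ≠ 2 := by rintro rfl; omega
    have hq := nd_split hP hS hp
    have hq0 := cast_pr_ne hpp (K := P.erase p)
      (fun q hq => (hP q (Finset.mem_of_mem_erase hq)).1) (Finset.notMem_erase p P)
    have hm0 : ((pr S : ℕ) : ZMod p) ≠ 0 := by
      intro h0
      apply hq
      have h1 := (ZMod.natCast_eq_zero_iff _ _).1 h0
      exact Dvd.dvd.mul_left (by exact_mod_cast h1) _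
    have e1 : ((pr P : ℕ) : ℤ) * ((pr S : ℕ) : ℤ) =
        p * (((pr (P.erase p) : ℕ) : ℤ) * ((pr S : ℕ) : ℤ)) := by
      rw [pr_erase hp]
      push_cast
      ring
    constructor
    · intro hs
      refine nRt1 (m := pr S) hpp hq0 (by push_cast; exact hq) p2 hz hz' ?_ hs
      intro l _
      have h1 := h l
      rw [e1] at h1
      push_cast at h1 ⊢
      exact h1
    · intro hnR
      by_contra hns
      apply hnR
      have hpP : Prime (p : ℤ) := Nat.prime_iff_prime_int.1 hpp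
      have hB : ¬ (p : ℤ) ∣ 128 * (((pr (P.erase p) : ℕ) : ℤ) * ((pr S : ℕ) : ℤ)) ^ 2 := by
        intro h0
        rcases hpP.dvd_or_dvd h0 with h0 | h0
        · exact nd128 hpp p2 h0
        · exact hq (hpP.dvd_of_dvd_pow h0)
      have h1 := h p
      rw [e1, show (13 : ℤ) * (p * (((pr (P.erase p) : ℕ) : ℤ) * ((pr S : ℕ) : ℤ))) =
          p * (13 * (((pr (P.erase p) : ℕ) : ℤ) * ((pr S : ℕ) : ℤ))) by ring,
        show (128 : ℤ) * (p * (((pr (P.erase p) : ℕ) : ℤ) * ((pr S : ℕ) : ℤ))) ^ 2 =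
          (p : ℤ) ^ 2 * (128 * (((pr (P.erase p) : ℕ) : ℤ) * ((pr S : ℕ) : ℤ)) ^ 2) by ring] at h1
      obtain ⟨r, hr, hr0, hr2⟩ := root_of_PC hz ⟨z', hz'⟩ hB h1
      obtain ⟨t, ht⟩ := hr2 z' hz'
      push_cast at hr
      refine rt_of_notS hpp p8 hm0 (r := r / ((pr (P.erase p) : ℕ) : ZMod p)) ?_ ?_
      · field_simp
        linear_combination hr
      · rintro ⟨s, hs⟩
        apply hns
        have hrs : r = s * s * ((pr (P.erase p) : ℕ) : ZMod p) := by
          rw [← hs]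
          field_simp
        have hs0 : s ≠ 0 := by
          rintro rfl
          apply hr0
          rw [hrs]
          ring
        refine ⟨t / s, ?_⟩
        rw [div_mul_div_comm, eq_div_iff (mul_ne_zero hs0 hs0), ← ht, hrs]
        ring

end Pool.Agent.Y664.Z1
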