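import Pool.Agent.Z700.Defs2

/-!
# Odd determinants and residue conditions

`lin`: if the determinant `Yd l x P` of Laplacian plus diagonal is odd, then a subset `J` of `P` whose
indicator vector is in the kernel modulo two is empty. `J_empty`: the same in terms of squares
modulo the primes of `P`.
-/

set_option autoImplicit false

namespace Pool.Agent.Y664.Z

open Finset Pool.Agent.Z700
open Pool.Agent.Y700 (PC Rt)

/-- the linear algebra lemma -/
theorem lin (l : ℕ → ℕ → ℤ) (x : ℕ → ℤ) (P J : Finset ℕ) (hP : Odd (Yd l x P)) (hJ : J ⊆ P)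
    (h1 : ∀ p ∈ P \ J, Even (∑ q ∈ J, l p q))
    (h2 : ∀ p ∈ J, Even ((∑ q ∈ P \ J, l p q) + x p)) : J = ∅ := by
  classical
  by_contra hne
  obtain ⟨p0, hp0⟩ := Finset.nonempty_iff_ne_empty.2 hne
  have : Fact (Nat.Prime 2) := ⟨Nat.prime_two⟩
  set M : Matrix P P ℤ :=
    Matrix.of fun i j : P => if i = j then (∑ k ∈ P.erase i.1, l i k) + x i else -l i j with hM
  have hdet : ((Int.castRingHom (ZMod 2)).mapMatrix M).det ≠ 0 := by
    rw [← RingHom.map_det]
    intro h0
    have h3 : (2 : ℤ) ∣ M.det := by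
      have := (ZMod.intCast_zmod_eq_zero_iff_dvd M.det 2).1 h0
      exact_mod_cast this
    have h4 : Odd M.det := by
      have h5 : Yd l x P = M.det := by
        unfold Yd
        rw [hM]
      rwa [h5] at hP
    exact (Int.not_odd_iff_even.2 (even_iff_two_dvd.2 h3)) h4
  have hv : ((Int.castRingHom (ZMod 2)).mapMatrix M).mulVec
      (fun j : P => if j.1 ∈ J then (1 : ZMod 2) else 0) = 0 := by
    funext i
    have e1 : ((Int.castRingHom (ZMod 2)).mapMatrix M).mulVec
        (fun j : P => if j.1 ∈ J then (1 : ZMod 2) else 0) i =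
        ((∑ j : P, M i j * (if j.1 ∈ J then 1 else 0) : ℤ) : ZMod 2) := by
      unfold Matrix.mulVec dotProduct
      push_cast
      refine Finset.sum_congr rfl fun j _ => ?_
      rw [RingHom.mapMatrix_apply, Matrix.map_apply]
      rfl
    rw [e1, Pi.zero_apply]
    have e2 : (∑ j : P, M i j * (if j.1 ∈ J then 1 else 0) : ℤ) =
        ∑ j ∈ P, (if i.1 = j then (∑ k ∈ P.erase i.1, l i k) + x i else -l i j) *
          (if j ∈ J then 1 else 0) := by
      rw [← Finset.sum_coe_sort P]
      refine Finset.sum_congr rfl fun j _ => ?_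
      rw [hM, Matrix.of_apply]
      congr 1
      by_cases hij : i = j
      · rw [if_pos hij, if_pos (congrArg Subtype.val hij)]
      · rw [if_neg hij, if_neg (fun h => hij (Subtype.ext h))]
    have e3 : (∑ j ∈ P, (if i.1 = j then (∑ k ∈ P.erase i.1, l i k) + x i else -l i j) *
          (if j ∈ J then 1 else 0) : ℤ) =
        ∑ j ∈ J, (if i.1 = j then (∑ k ∈ P.erase i.1, l i k) + x i else -l i j) := by
      simp only [mul_ite, mul_one, mul_zero]
      rw [← Finset.sum_filter]
      congr 1
      ext j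
      rw [Finset.mem_filter]
      exact ⟨fun h => h.2, fun h => ⟨hJ h, h⟩⟩
    have hev : Even (∑ j : P, M i j * (if j.1 ∈ J then 1 else 0) : ℤ) := by
      rw [e2, e3]
      by_cases hi : i.1 ∈ J
      · have e4 := Finset.add_sum_erase J
          (fun j => if i.1 = j then (∑ k ∈ P.erase i.1, l i k) + x i else -l i j) hi
        rw [← e4, if_pos rfl]
        have e5 : (∑ j ∈ J.erase i.1,
            (if i.1 = j then (∑ k ∈ P.erase i.1, l i k) + x i else -l i j)) =
            -∑ j ∈ J.erase i.1, l i j := by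
          rw [← Finset.sum_neg_distrib]
          refine Finset.sum_congr rfl fun j hj => ?_
          rw [if_neg (Finset.ne_of_mem_erase hj).symm]
        have e6 : ∑ k ∈ P.erase i.1, l i k = ∑ k ∈ P \ J, l i k + ∑ k ∈ J.erase i.1, l i k := by
          rw [← Finset.sum_union]
          · congr 1
            ext k
            simp only [Finset.mem_erase, Finset.mem_union, Finset.mem_sdiff]
            constructor
            · rintro ⟨h3, h4⟩
              by_cases h5 : k ∈ J
              · exact Or.inr ⟨h3, h5⟩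
              · exact Or.inl ⟨h4, h5⟩
            · rintro (⟨h3, h4⟩ | ⟨h3, h4⟩)
              · exact ⟨fun h => h4 (h ▸ hi), h3⟩
              · exact ⟨h3, hJ h4⟩
          · rw [Finset.disjoint_left]
            intro k h3 h4
            exact (Finset.mem_sdiff.1 h3).2 (Finset.mem_of_mem_erase h4)
        rw [e5, e6]
        have e7 := h2 i.1 hi
        have e8 : (∑ k ∈ P \ J, l i k + ∑ k ∈ J.erase i.1, l i k) + x i +
            -∑ j ∈ J.erase i.1, l i j = (∑ q ∈ P \ J, l i q) + x i := by ring
        rw [e8]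
        exact e7
      · have e5 : (∑ j ∈ J, (if i.1 = j then (∑ k ∈ P.erase i.1, l i k) + x i else -l i j)) =
            -∑ j ∈ J, l i j := by
          rw [← Finset.sum_neg_distrib]
          refine Finset.sum_congr rfl fun j hj => ?_
          rw [if_neg]
          rintro rfl
          exact hi hj
        rw [e5, even_neg]
        exact h1 i.1 (Finset.mem_sdiff.2 ⟨i.2, hi⟩)
    obtain ⟨k, hk⟩ := hev
    rw [hk]
    push_cast
    exact CharTwo.add_self_eq_zero _
  have h3 := Matrix.eq_zero_of_mulVec_eq_zero hdet hv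
  have h4 := congrFun h3 ⟨p0, hJ hp0⟩
  simp only [Pi.zero_apply] at h4
  rw [if_pos hp0] at h4
  exact one_ne_zero h4

theorem prime_not_dvd_pr {p : ℕ} (hp : p.Prime) {K : Finset ℕ} (hK : ∀ q ∈ K, q.Prime)
    (h : p ∉ K) : ¬ p ∣ pr K := by
  unfold pr
  intro h0
  obtain ⟨q, hq, hd⟩ := (Prime.dvd_finsetProd_iff hp.prime _).1 h0
  have := (Nat.prime_dvd_prime_iff_eq hp (hK q hq)).1 hd
  exact h (this ▸ hq)

theorem cast_pr_ne {p : ℕ} (hp : p.Prime) {K : Finset ℕ} (hK : ∀ q ∈ K, q.Prime)
    (h : p ∉ K) : ((pr K : ℕ) : ZMod p) ≠ 0 := by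
  intro h0
  exact prime_not_dvd_pr hp hK h ((ZMod.natCast_eq_zero_iff _ _).1 h0)

/-- the parity of the number of edges and squares -/
theorem parity {p : ℕ} (hp : p.Prime) (p8 : p % 8 = 1) (K : Finset ℕ)
    (hK : ∀ q ∈ K, q.Prime ∧ q % 8 = 1) (h : p ∉ K) :
    (IsSquare ((pr K : ℕ) : ZMod p) ↔ Even (∑ q ∈ K, lres p q)) := by
  classical
  have f : Fact p.Prime := ⟨hp⟩
  have key : ∀ K : Finset ℕ, (∀ q ∈ K, q.Prime ∧ q % 8 = 1) → p ∉ K →
      (jacobiSym ((pr K : ℕ) : ℤ) p = 1 ∧ Even (∑ q ∈ K, lres p q)) ∨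
      (jacobiSym ((pr K : ℕ) : ℤ) p = -1 ∧ ¬ Even (∑ q ∈ K, lres p q)) := by
    intro K
    induction K using Finset.induction_on with
    | empty =>
      intro _ _
      left
      simp [pr]
    | insert q K hq ih =>
      intro hK h
      have h1 := ih (fun r hr => hK r (Finset.mem_insert_of_mem hr))
        (fun h0 => h (Finset.mem_insert_of_mem h0))
      obtain ⟨q1, q8⟩ := hK q (Finset.mem_insert_self q K)
      have hpq : p ≠ q := by
        rintro rfl
        exact h (Finset.mem_insert_self _ _)
      have e1 : jacobiSym ((pr (insert q K) : ℕ) : ℤ) p =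
          jacobiSym (q : ℤ) p * jacobiSym ((pr K : ℕ) : ℤ) p := by
        have : pr (insert q K) = q * pr K := by
          unfold pr
          rw [Finset.prod_insert hq]
        rw [this]
        push_cast
        exact jacobiSym.mul_left _ _ _
      have e2 : jacobiSym (p : ℤ) q = jacobiSym (q : ℤ) p :=
        jacobiSym.quadratic_reciprocity_one_mod_four (by omega) (by
          rw [Nat.odd_iff]
          omega)
      have e3 : jacobiSym (q : ℤ) p = 1 ∨ jacobiSym (q : ℤ) p = -1 := by
        refine jacobiSym.eq_one_or_neg_one ?_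
        rw [Int.gcd_natCast_natCast]
        exact (Nat.coprime_primes q1 hp).2 hpq.symm
      rw [e1, Finset.sum_insert hq]
      rcases e3 with e3 | e3
      · have e4 : lres p q = 0 := by
          unfold lres
          rw [e2, e3]
          simp
        rw [e3, e4, zero_add, one_mul]
        exact h1
      · have e4 : lres p q = 1 := by
          unfold lres
          rw [e2, e3]
          simp
        rw [e3, e4]
        rcases h1 with ⟨h2, h3⟩ | ⟨h2, h3⟩
        · right
          rw [h2]
          refine ⟨by norm_num, ?_⟩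
          rw [Int.even_add]
          intro h4
          exact absurd (h4.2 h3) (by decide)
        · left
          rw [h2]
          refine ⟨by norm_num, ?_⟩
          rw [Int.even_add]
          constructor
          · intro h4
            exact absurd h4 (by decide)
          · intro h4
            exact absurd h4 h3
  have h1 : (((pr K : ℕ) : ℤ) : ZMod p) ≠ 0 := by
    push_cast
    exact cast_pr_ne hp (fun q hq => (hK q hq).1) h
  have h2 := legendreSym.eq_one_iff p h1
  rw [jacobiSym.legendreSym.to_jacobiSym] at h2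
  push_cast at h2
  rw [← h2]
  rcases key K hK h with ⟨h3, h4⟩ | ⟨h3, h4⟩
  · exact ⟨fun _ => h4, fun _ => h3⟩
  · constructor
    · intro h5
      rw [h3] at h5
      norm_num at h5
    · intro h5
      exact absurd h5 h4

/-- The residue conditions imply that `J` is empty. -/
theorem J_empty {P J : Finset ℕ} (H : Hyk P) (hJ : J ⊆ P)
    (h1 : ∀ p ∈ P \ J, IsSquare ((pr J : ℕ) : ZMod p))
    (h2 : ∀ p ∈ J, (IsSquare ((pr (P \ J) : ℕ) : ZMod p) ↔ ¬ Rt p 1)) : J = ∅ := by
  classical
  obtain ⟨-, hP, hodd⟩ := H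
  refine lin lres xrt P J hodd hJ ?_ ?_
  · intro p hp
    rw [Finset.mem_sdiff] at hp
    exact (parity (hP p hp.1).1 (hP p hp.1).2.1 J
      (fun q hq => ⟨(hP q (hJ hq)).1, (hP q (hJ hq)).2.1⟩) hp.2).1
      (h1 p (Finset.mem_sdiff.2 hp))
  · intro p hp
    have h3 := parity (hP p (hJ hp)).1 (hP p (hJ hp)).2.1 (P \ J)
      (fun q hq => ⟨(hP q (Finset.mem_sdiff.1 hq).1).1, (hP q (Finset.mem_sdiff.1 hq).1).2.1⟩)
      (fun h => (Finset.mem_sdiff.1 h).2 hp)
    have h4 := h2 p hp
    unfold xrt
    by_cases h5 : Rt p 1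
    · rw [if_pos h5, Int.even_add]
      have h6 : ¬ Even (∑ q ∈ P \ J, lres p q) := fun h7 => (h4.1 (h3.2 h7)) h5
      constructor
      · intro h7
        exact absurd h7 h6
      · intro h7
        exact absurd h7 (by decide)
    · rw [if_neg h5, add_zero]
      exact h3.1 (h4.2 h5)

end Pool.Agent.Y664.Z
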